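import Pool.Agent.Helper69.DC.Goals

/-!
Packet DC-GOOD (MP_628424_an): the good point.
-/

namespace Pool.Agent.Helper8.DC

open MvPolynomial Finset ComplexConjugate Pool.Agent.Helper69.DC

/-! ### Evaluation of substitutions -/

theorem eval_aeval' {σ τ : Type*} (p : τ → ℂ) (g : σ → MvPolynomial τ ℂ)
    (D : MvPolynomial σ ℂ) : eval p (aeval g D) = eval (fun i => eval p (g i)) D := by
  induction D using MvPolynomial.induction_on with
  | C a => simp
  | add q r hq hr => rw [map_add, map_add, hq, hr, map_add]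
  | mul_X q i hq => rw [map_mul, map_mul, hq, map_mul, aeval_X, eval_X]

theorem exists_eval_ne {σ : Type*} {D : MvPolynomial σ ℂ} (h : D ≠ 0) :
    ∃ z : σ → ℂ, eval z D ≠ 0 := by
  by_contra hcon
  push Not at hcon
  refine h (MvPolynomial.funext fun z => ?_)
  rw [hcon z, map_zero]

/-- A nonzero polynomial has a nonzero value at a point with nonzero `i`-th coordinate. -/
theorem exists_eval_ne' {σ : Type*} {D : MvPolynomial σ ℂ} (h : D ≠ 0) (i : σ) :
    ∃ z : σ → ℂ, eval z D ≠ 0 ∧ z i ≠ 0 := by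
  obtain ⟨z, hz⟩ := exists_eval_ne (mul_ne_zero h (MvPolynomial.X_ne_zero (R := ℂ) i))
  rw [map_mul, eval_X] at hz
  exact ⟨z, left_ne_zero_of_mul hz, right_ne_zero_of_mul hz⟩

/-! ### Top coefficients -/

/-- Degree at most `n` with the coefficient `c` in degree `n`. -/
def Top (p : Polynomial ℂ) (n : ℕ) (c : ℂ) : Prop := p.natDegree ≤ n ∧ p.coeff n = c

theorem Top.mul {p q : Polynomial ℂ} {n k : ℕ} {c e : ℂ} (hp : Top p n c) (hq : Top q k e) :
    Top (p * q) (n + k) (c * e) := by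
  refine ⟨Polynomial.natDegree_mul_le.trans (add_le_add hp.1 hq.1), ?_⟩
  rw [Polynomial.coeff_mul_add_eq_of_natDegree_le hp.1 hq.1, hp.2, hq.2]

theorem Top.one : Top 1 0 1 := by
  refine ⟨by simp, by simp⟩

theorem Top.pow {p : Polynomial ℂ} {c : ℂ} (hp : Top p 1 c) (k : ℕ) : Top (p ^ k) k (c ^ k) := by
  induction k with
  | zero => simpa using Top.one
  | succ k ih =>
    rw [pow_succ, pow_succ]
    exact ih.mul hp

theorem Top.prod {ι : Type*} (s : Finset ι) (p : ι → Polynomial ℂ) (n : ι → ℕ) (c : ι → ℂ)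
    (h : ∀ i ∈ s, Top (p i) (n i) (c i)) :
    Top (∏ i ∈ s, p i) (∑ i ∈ s, n i) (∏ i ∈ s, c i) := by
  classical
  induction s using Finset.induction_on with
  | empty => simpa using Top.one
  | insert a s ha ih =>
    rw [prod_insert ha, prod_insert ha, sum_insert ha]
    exact (h a (mem_insert_self a s)).mul (ih fun i hi => h i (mem_insert_of_mem hi))

theorem top_lin (x y : ℂ) :
    Top (Polynomial.C x + Polynomial.C y * Polynomial.X) 1 y := by
  constructor
  · compute_degree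
  · simp

/-- The substitution `x + t y`. -/
noncomputable def lin {σ : Type*} (x y : σ → ℂ) : σ → Polynomial ℂ :=
  fun i => Polynomial.C (x i) + Polynomial.C (y i) * Polynomial.X

theorem top_mono {σ : Type*} (x y : σ → ℂ) (s : σ →₀ ℕ) (c : ℂ) :
    Top (aeval (lin x y) (monomial s c)) s.degree (eval y (monomial s c)) := by
  rw [aeval_monomial, eval_monomial]
  have h1 : Top ((algebraMap ℂ (Polynomial ℂ)) c) 0 c := by
    constructor
    · rw [Polynomial.algebraMap_eq]
      exact (Polynomial.natDegree_C c).le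
    · rw [Polynomial.algebraMap_eq]
      simp
  have h2 : Top (∏ i ∈ s.support, lin x y i ^ s i) (∑ i ∈ s.support, s i)
      (∏ i ∈ s.support, y i ^ s i) :=
    Top.prod _ _ _ _ fun i _ => (top_lin (x i) (y i)).pow (s i)
  have h3 := h1.mul h2
  rw [zero_add] at h3
  exact h3

theorem coeff_lin {σ : Type*} (x y : σ → ℂ) (F : MvPolynomial σ ℂ) (d : ℕ)
    (hF : F.totalDegree ≤ d) :
    (aeval (lin x y) F).coeff d = eval y (homogeneousComponent d F) := by
  classical
  have h1 : aeval (lin x y) F = ∑ s ∈ F.support, aeval (lin x y) (monomial s (coeff s F)) := by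
    conv_lhs => rw [F.as_sum]
    rw [map_sum]
  rw [h1, Polynomial.finsetSum_coeff, homogeneousComponent_apply, map_sum, sum_filter]
  refine sum_congr rfl fun s hs => ?_
  have hdeg : s.degree ≤ d := (le_totalDegree hs).trans hF
  have ht := top_mono x y s (coeff s F)
  by_cases h : s.degree = d
  · rw [if_pos h, ← h]
    exact ht.2
  · rw [if_neg h]
    exact Polynomial.coeff_eq_zero_of_natDegree_lt (lt_of_le_of_lt ht.1 (lt_of_le_of_ne hdeg h))

theorem hom_ne_zero {σ : Type*} {F : MvPolynomial σ ℂ} (h : F ≠ 0) :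
    homogeneousComponent F.totalDegree F ≠ 0 := by
  classical
  have hne : F.support.Nonempty := by
    rw [Finset.nonempty_iff_ne_empty]
    intro h0
    exact h (MvPolynomial.support_eq_empty.1 h0)
  obtain ⟨s, hs, hs2⟩ := Finset.exists_mem_eq_sup F.support hne
    (fun s : σ →₀ ℕ => s.sum fun _ e => e)
  intro hcon
  have h1 := coeff_homogeneousComponent F.totalDegree F s
  rw [hcon, if_pos] at h1
  · rw [MvPolynomial.coeff_zero] at h1
    exact (MvPolynomial.mem_support_iff.1 hs) h1.symm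
  · exact hs2.symm

/-! ### The point -/

theorem ev_gg {m N : ℕ} (f : Fin (N + 1) → MvPolynomial (Fin m ⊕ Unit) ℂ) (k : Fin (N + 1))
    (β β' : Fin m → ℂ) (b : ℂ) :
    eval (pt β β' b) (gg f k) = eval (Sum.elim β fun _ => ∑ i, β i * β' i - b) (f k) := by
  unfold gg
  rw [eval_aeval']
  congr 1
  congr 1
  funext i
  rcases i with i | i
  · simp [pt]
  · simp [pt]

theorem exists_top {m N d : ℕ} {f : Fin (N + 1) → MvPolynomial (Fin m ⊕ Unit) ℂ}
    (hf : SMap m N d f) : ∃ k, f k ≠ 0 ∧ (f k).totalDegree = d := by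
  obtain ⟨k, hk⟩ := hf.top
  by_cases h0 : f k = 0
  · have hd : d = 0 := by
      rw [h0, totalDegree_zero] at hk
      exact hk.symm
    by_contra hcon
    push Not at hcon
    have hall : ∀ l, f l = 0 := by
      intro l
      by_contra hl
      exact hcon l hl (by
        have := hf.deg l
        omega)
    have hu := hf.cop 0 (fun l => by rw [hall l])
    exact not_isUnit_zero hu
  · exact ⟨k, h0, hk⟩

variable {m : ℕ}

/-- The ring of the coordinates `β, β', b, v, v'`. -/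
abbrev RR (m : ℕ) := MvPolynomial (V3 m ⊕ (Fin m ⊕ Fin m)) ℂ

/-- The substitution `(β, β β' - b)`. -/
noncomputable def sx : Fin m ⊕ Unit → RR m :=
  Sum.elim (fun i => X (Sum.inl (Sum.inl i)))
    (fun _ => ∑ i, X (Sum.inl (Sum.inl i)) * X (Sum.inl (Sum.inr (Sum.inl i))) -
      X (Sum.inl (Sum.inr (Sum.inr ()))))

/-- The substitution `(v, v β')`. -/
noncomputable def sy : Fin m ⊕ Unit → RR m :=
  Sum.elim (fun i => X (Sum.inr (Sum.inl i)))
    (fun _ => ∑ i, X (Sum.inr (Sum.inl i)) * X (Sum.inl (Sum.inr (Sum.inl i))))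

/-- The point. -/
def pp (β β' : Fin m → ℂ) (b : ℂ) (v v' : Fin m → ℂ) : V3 m ⊕ (Fin m ⊕ Fin m) → ℂ :=
  Sum.elim (pt β β' b) (Sum.elim v v')

theorem ev_sx (β β' : Fin m → ℂ) (b : ℂ) (v v' : Fin m → ℂ) (i : Fin m ⊕ Unit) :
    eval (pp β β' b v v') (sx i) = (Sum.elim β fun _ => ∑ i, β i * β' i - b) i := by
  rcases i with i | i
  · simp [pp, sx, pt]
  · simp [pp, sx, pt]

theorem ev_sy (β β' : Fin m → ℂ) (b : ℂ) (v v' : Fin m → ℂ) (i : Fin m ⊕ Unit) :
    eval (pp β β' b v v') (sy i) = (Sum.elim v fun _ => ∑ i, v i * β' i) i := by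
  rcases i with i | i
  · simp [pp, sy, pt]
  · simp [pp, sy, pt]

/-- The first polynomial. -/
noncomputable def P1 (D : MvPolynomial ((Fin m ⊕ Unit) ⊕ (Fin m ⊕ Unit)) ℂ) : RR m :=
  aeval (Sum.elim sx sy) D

theorem ev_P1 (D : MvPolynomial ((Fin m ⊕ Unit) ⊕ (Fin m ⊕ Unit)) ℂ) (β β' : Fin m → ℂ) (b : ℂ)
    (v v' : Fin m → ℂ) : eval (pp β β' b v v') (P1 D) =
      eval (Sum.elim (Sum.elim β fun _ => ∑ i, β i * β' i - b)
        (Sum.elim v fun _ => ∑ i, v i * β' i)) D := by
  unfold P1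
  rw [eval_aeval']
  congr 1
  congr 1
  funext i
  rcases i with i | i
  · exact ev_sx β β' b v v' i
  · exact ev_sy β β' b v v' i

/-- The second polynomial. -/
noncomputable def P2 (H : MvPolynomial (Fin m ⊕ Unit) ℂ) : RR m := aeval sy H

theorem ev_P2 (H : MvPolynomial (Fin m ⊕ Unit) ℂ) (β β' : Fin m → ℂ) (b : ℂ)
    (v v' : Fin m → ℂ) : eval (pp β β' b v v') (P2 H) =
      eval (Sum.elim v fun _ => ∑ i, v i * β' i) H := by
  unfold P2
  rw [eval_aeval']
  congr 1
  congr 1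
  funext i
  exact ev_sy β β' b v v' i

/-- The third polynomial. -/
noncomputable def P3 (G : MvPolynomial (V3 m) ℂ) : RR m := rename Sum.inl G

theorem ev_P3 (G : MvPolynomial (V3 m) ℂ) (β β' : Fin m → ℂ) (b : ℂ)
    (v v' : Fin m → ℂ) : eval (pp β β' b v v') (P3 G) = eval (pt β β' b) G := by
  unfold P3 pp
  rw [eval_rename, Sum.elim_comp_inl]

/-- The fourth polynomial. -/
noncomputable def P4 (Q : Fin (m + 1) → Fin (m + 1) → MvPolynomial (V3 m) ℂ) : RR m :=
  ∑ i : Fin m, ∑ j : Fin m, rename Sum.inl (Q i.succ j.succ) * X (Sum.inr (Sum.inr i)) *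
    X (Sum.inr (Sum.inr j))

theorem ev_P4 (Q : Fin (m + 1) → Fin (m + 1) → MvPolynomial (V3 m) ℂ) (β β' : Fin m → ℂ) (b : ℂ)
    (v v' : Fin m → ℂ) : eval (pp β β' b v v') (P4 Q) =
      ∑ i : Fin m, ∑ j : Fin m, eval (pt β β' b) (Q i.succ j.succ) * v' i * v' j := by
  unfold P4 pp
  rw [map_sum]
  refine sum_congr rfl fun i _ => ?_
  rw [map_sum]
  refine sum_congr rfl fun j _ => ?_
  rw [map_mul, map_mul, eval_rename, Sum.elim_comp_inl, eval_X, eval_X]
  rfl

theorem exists_dir {v : Fin m → ℂ} {i : Fin m} (h : v i ≠ 0) (c : ℂ) :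
    ∃ β' : Fin m → ℂ, ∑ j, v j * β' j = c := by
  classical
  refine ⟨Pi.single i (c / v i), ?_⟩
  rw [Finset.sum_eq_single i]
  · rw [Pi.single_eq_same]
    field_simp
  · intro j _ hj
    rw [Pi.single_eq_of_ne hj, mul_zero]
  · intro h0
    exact absurd (mem_univ i) h0

theorem P1_ne {D : MvPolynomial ((Fin m ⊕ Unit) ⊕ (Fin m ⊕ Unit)) ℂ} (hD : D ≠ 0)
    (hm : 1 ≤ m) : P1 D ≠ 0 := by
  obtain ⟨z, hz, hv⟩ := exists_eval_ne' hD (Sum.inr (Sum.inl (⟨0, hm⟩ : Fin m)))
  intro h0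
  obtain ⟨β', hβ'⟩ := exists_dir (v := fun i => z (Sum.inr (Sum.inl i))) hv
    (z (Sum.inr (Sum.inr ())))
  have h1 := ev_P1 D (fun i => z (Sum.inl (Sum.inl i))) β'
    (∑ i, z (Sum.inl (Sum.inl i)) * β' i - z (Sum.inl (Sum.inr ())))
    (fun i => z (Sum.inr (Sum.inl i))) 0
  rw [h0, map_zero] at h1
  apply hz
  rw [h1]
  congr 1
  congr 1
  funext i
  rcases i with (i | i) | (i | i)
  · rfl
  · simp
  · rfl
  · exact hβ'.symm

theorem P2_ne {H : MvPolynomial (Fin m ⊕ Unit) ℂ} (hH : H ≠ 0) (hm : 1 ≤ m) : P2 H ≠ 0 := by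
  obtain ⟨z, hz, hv⟩ := exists_eval_ne' hH (Sum.inl (⟨0, hm⟩ : Fin m))
  intro h0
  obtain ⟨β', hβ'⟩ := exists_dir (v := fun i => z (Sum.inl i)) hv (z (Sum.inr ()))
  have h1 := ev_P2 H 0 β' 0 (fun i => z (Sum.inl i)) 0
  rw [h0, map_zero] at h1
  apply hz
  rw [h1]
  congr 1
  congr 1
  funext i
  rcases i with i | i
  · rfl
  · exact hβ'.symm

theorem P3_ne {N : ℕ} {f : Fin (N + 1) → MvPolynomial (Fin m ⊕ Unit) ℂ} {k : Fin (N + 1)}
    (h : f k ≠ 0) : P3 (gg f k) ≠ 0 := by
  obtain ⟨z, hz⟩ := exists_eval_ne h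
  intro h0
  have h1 := ev_P3 (gg f k) (fun i => z (Sum.inl i)) 0 (-z (Sum.inr ())) 0 0
  rw [h0, map_zero, ev_gg] at h1
  apply hz
  rw [h1]
  congr 1
  congr 1
  funext i
  rcases i with i | i
  · rfl
  · simp

theorem form_ne {q : Fin m → Fin m → ℂ} (hq : ∀ i j, j < i → q i j = 0)
    (h : ∃ i j, q i j ≠ 0) : ∃ v : Fin m → ℂ, ∑ i, ∑ j, q i j * v i * v j ≠ 0 := by
  classical
  by_contra hcon
  push Not at hcon
  have hdiag : ∀ i, q i i = 0 := by
    intro i
    have h1 := hcon (Pi.single i 1)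
    rw [Finset.sum_eq_single i, Finset.sum_eq_single i] at h1
    · simpa using h1
    · intro j _ hj
      rw [Pi.single_eq_of_ne hj, mul_zero]
    · intro h0
      exact absurd (mem_univ i) h0
    · intro j _ hj
      refine sum_eq_zero fun l _ => ?_
      rw [Pi.single_eq_of_ne hj, mul_zero, zero_mul]
    · intro h0
      exact absurd (mem_univ i) h0
  obtain ⟨i, j, hij⟩ := h
  have hlt : i < j := by
    rcases lt_trichotomy i j with h1 | h1 | h1
    · exact h1
    · exfalso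
      rw [h1] at hij
      exact hij (hdiag j)
    · exact absurd (hq i j h1) hij
  have hne : i ≠ j := ne_of_lt hlt
  have hform : ∀ v : Fin m → ℂ, (∀ l, l ≠ i → l ≠ j → v l = 0) →
      ∑ a, ∑ b, q a b * v a * v b = q i i * v i * v i + q i j * v i * v j +
        (q j i * v j * v i + q j j * v j * v j) := by
    intro v hv
    have hrow : ∀ a, ∑ b, q a b * v a * v b = q a i * v a * v i + q a j * v a * v j := by
      intro a
      rw [← Finset.sum_subset (Finset.subset_univ {i, j}), Finset.sum_pair hne]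
      intro b _ hb
      rw [mem_insert, mem_singleton, not_or] at hb
      rw [hv b hb.1 hb.2, mul_zero]
    rw [← Finset.sum_subset (Finset.subset_univ {i, j}), Finset.sum_pair hne, hrow, hrow]
    intro a _ ha
    rw [mem_insert, mem_singleton, not_or] at ha
    rw [hrow, hv a ha.1 ha.2]
    ring
  have h1 := hcon (fun l => if l = i ∨ l = j then 1 else 0)
  rw [hform] at h1
  · rw [if_pos (Or.inl rfl), if_pos (Or.inr rfl), hdiag, hdiag, hq j i hlt] at h1
    apply hij
    linear_combination h1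
  · intro l hl1 hl2
    rw [if_neg]
    rintro (h2 | h2)
    · exact hl1 h2
    · exact hl2 h2

theorem pt_eta (z : V3 m → ℂ) :
    pt (fun i => z (Sum.inl i)) (fun i => z (Sum.inr (Sum.inl i))) (z (Sum.inr (Sum.inr ())))
      = z := by
  funext i
  rcases i with i | i | i
  · rfl
  · rfl
  · rfl

theorem P4_ne {Q : Fin (m + 1) → Fin (m + 1) → MvPolynomial (V3 m) ℂ}
    (hQ : ∀ i j, j < i → Q i j = 0) (h : ∃ i j : Fin m, Q i.succ j.succ ≠ 0) : P4 Q ≠ 0 := by
  obtain ⟨i, j, hij⟩ := h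
  obtain ⟨z, hz⟩ := exists_eval_ne hij
  obtain ⟨w, hw⟩ := form_ne (q := fun i j => eval z (Q i.succ j.succ))
    (fun a b hab => by
      show eval z (Q a.succ b.succ) = 0
      rw [hQ a.succ b.succ (Fin.succ_lt_succ_iff.2 hab), map_zero]) ⟨i, j, hz⟩
  intro h0
  have h1 := ev_P4 Q (fun i => z (Sum.inl i)) (fun i => z (Sum.inr (Sum.inl i)))
    (z (Sum.inr (Sum.inr ()))) 0 w
  rw [h0, map_zero, pt_eta] at h1
  exact hw h1.symm

theorem g_good (h1 : G_LD) (h2 : G_BEZ) : G_GOOD := by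
  intro m N d f hf hm Q hQ hQ2
  obtain ⟨D, hD, hD2⟩ := h2 (Fin m ⊕ Unit) N f hf.cop
  obtain ⟨k, hk, hkd⟩ := exists_top hf
  have hH : homogeneousComponent d (f k) ≠ 0 := by
    rw [← hkd]
    exact hom_ne_zero hk
  have hP : P1 D * P2 (homogeneousComponent d (f k)) * P3 (gg f k) * P4 Q ≠ 0 :=
    mul_ne_zero (mul_ne_zero (mul_ne_zero (P1_ne hD hm) (P2_ne hH hm)) (P3_ne hk)) (P4_ne hQ hQ2)
  have hex : ∃ (β : Fin m → ℂ) (b : ℂ) (v : Fin m → ℂ), b + conj b = ∑ i, β i * conj (β i) ∧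
      eval (pp β (fun i => conj (β i)) b v fun i => conj (v i))
        (P1 D * P2 (homogeneousComponent d (f k)) * P3 (gg f k) * P4 Q) ≠ 0 := by
    by_contra hcon
    push Not at hcon
    exact hP (h1 m (Fin m) _ fun β b w hb => hcon β b w hb)
  obtain ⟨β, b, v, hb, hev⟩ := hex
  rw [map_mul, map_mul, map_mul] at hev
  have e4 := right_ne_zero_of_mul hev
  have e3 := right_ne_zero_of_mul (left_ne_zero_of_mul hev)
  have e2 := right_ne_zero_of_mul (left_ne_zero_of_mul (left_ne_zero_of_mul hev))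
  have e1 := left_ne_zero_of_mul (left_ne_zero_of_mul (left_ne_zero_of_mul hev))
  have ha : ∑ i, β i * conj (β i) - b = conj b := by
    rw [← hb]
    ring
  rw [ev_P1, ha] at e1
  rw [ev_P2] at e2
  rw [ev_P3, ev_gg, ha] at e3
  rw [ev_P4] at e4
  refine ⟨β, conj b, v, ?_, ?_, ?_, ?_, ?_⟩
  · unfold Null
    rw [Complex.conj_conj, add_comm]
    exact hb
  · intro h0
    exact e3 (congrFun h0 k)
  · intro t h0
    obtain ⟨l, hl⟩ := hD2 _ _ e1 t
    apply hl
    have h3 := congrFun h0 l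
    unfold fv at h3
    rw [Pi.zero_apply] at h3
    rw [← h3]
    congr 1
    congr 1
    funext i
    rcases i with i | i
    · rfl
    · rfl
  · intro h0
    apply e2
    have h3 := congrFun h0 k
    unfold AJ la at h3
    rw [Pi.zero_apply] at h3
    rw [← coeff_lin (Sum.elim β fun _ => conj b) (Sum.elim v fun _ => ∑ i, v i * conj (β i))
      (f k) d hkd.le, ← h3]
    congr 1
    congr 1
    congr 1
    funext i
    rcases i with i | i
    · rfl
    · rfl
  · rw [Complex.conj_conj]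
    exact e4

end Pool.Agent.Helper8.DC
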