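import Pool.Agent.Helper66.DC.Goals3
import Pool.Agent.Helper15.DC.PDEC
import Pool.Agent.Helper56.DC.TX

/-!
# Project DC3, packet CNTJ: vectors orthogonal to all jets of order at most `q`
-/

set_option autoImplicit false

namespace Pool.Agent.Helper8.DC

open MvPolynomial Finset ComplexConjugate Pool.Agent.Helper69.DC Pool.Agent.Helper66.DC
open Pool.Agent.Helper15.DC (SJ card_SJ deg_SJ)

variable {m : ℕ}

/-- the translation `h ↦ h(β + X)` -/
noncomputable def ph (β : Fin m → ℂ) : MvPolynomial (Fin m) ℂ →+* MvPolynomial (Fin m) ℂ :=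
  (MvPolynomial.map (eval β)).comp
    (tay1 : MvPolynomial (Fin m) ℂ →ₐ[ℂ] MvPolynomial (Fin m) (MvPolynomial (Fin m) ℂ)).toRingHom

theorem ph_apply (β : Fin m → ℂ) (g : MvPolynomial (Fin m) ℂ) :
    ph β g = MvPolynomial.map (eval β) (tay1 g) := rfl

theorem ph_C (β : Fin m → ℂ) (z : ℂ) : ph β (C z) = C z := by
  rw [ph_apply]
  unfold tay1
  rw [aeval_C]
  change MvPolynomial.map (eval β) (C (C z)) = C z
  rw [map_C, eval_C]

theorem ph_X (β : Fin m → ℂ) (i : Fin m) : ph β (X i) = C (β i) + X i := by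
  rw [ph_apply]
  unfold tay1
  rw [aeval_X, map_add, map_C, eval_X, map_X]

theorem ph_xp (β w : Fin m → ℂ) :
    ph β (xp β w) = Pool.Agent.Helper56.DC.lf fun i => conj (w i) := by
  unfold xp Pool.Agent.Helper56.DC.lf
  rw [map_sum]
  refine Finset.sum_congr rfl fun i _ => ?_
  rw [map_mul, map_sub, ph_C, ph_C, ph_X, MvPolynomial.smul_eq_C_mul]
  ring

theorem coeff_ph_hfc {N : ℕ} (β : Fin m → ℂ) (g : Fin (N + 1) → MvPolynomial (Fin m) ℂ)
    (u : Fin (N + 1) → ℂ) (α : Fin m →₀ ℕ) :
    coeff α (ph β (hfc g u)) = conj (u 0) * coeff α (ph β (g 0)) -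
      ∑ j : Fin N, conj (u j.succ) * coeff α (ph β (g j.succ)) := by
  unfold hfc
  rw [map_sub, map_mul, ph_C, map_sum, coeff_sub, coeff_C_mul, coeff_sum]
  congr 1
  refine Finset.sum_congr rfl fun j _ => ?_
  rw [map_mul, ph_C, coeff_C_mul]

theorem coeff_ph_hfc_zero {N q : ℕ} (β : Fin m → ℂ) (g : Fin (N + 1) → MvPolynomial (Fin m) ℂ)
    (u : Fin (N + 1) → ℂ) (w : Fin m → ℂ) (h : xp β w ^ (q + 1) ∣ hfc g u) (α : Fin m →₀ ℕ)
    (hα : α ∈ SJ m q) : coeff α (ph β (hfc g u)) = 0 := by
  obtain ⟨r, hr⟩ := h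
  rw [hr, map_mul, map_pow, ph_xp]
  refine Pool.Agent.Helper56.DC.coeff_lf_mul_lt _ _ _ _ ?_
  have := deg_SJ hα
  rw [Finsupp.degree_eq_sum]
  omega

theorem pr_of_support {q : ℕ} (f : (Fin m →₀ ℕ) → ℂ) (G : MvPolynomial (Fin m) ℂ) :
    pr (∑ α ∈ SJ m q, monomial α (f α)) G =
      ∑ α ∈ SJ m q, f α * ((∏ i, (α i).factorial : ℕ) : ℂ) * coeff α G := by
  classical
  have hc : ∀ α, coeff α (∑ α ∈ SJ m q, monomial α (f α) : MvPolynomial (Fin m) ℂ) =
      if α ∈ SJ m q then f α else 0 := by
    intro α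
    rw [coeff_sum]
    simp only [coeff_monomial]
    rw [Finset.sum_ite_eq' (SJ m q) α f]
  unfold pr
  have hs : (∑ α ∈ SJ m q, monomial α (f α) : MvPolynomial (Fin m) ℂ).support ⊆ SJ m q := by
    intro α hα
    rw [mem_support_iff, hc] at hα
    by_contra h
    rw [if_neg h] at hα
    exact hα rfl
  rw [Finset.sum_subset hs]
  · refine Finset.sum_congr rfl fun α hα => ?_
    rw [hc, if_pos hα]
  · intro α _ hα
    rw [notMem_support_iff.1 hα]
    ring

theorem h_cntj : J_CNTJ := by
  classical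
  intro m N q β g hg T hT
  let sg : Fin (N + 1) → ℂ := fun k => if k = 0 then 1 else -1
  let M : Matrix {α // α ∈ SJ m q} (Fin (N + 1)) ℂ := Matrix.of fun α k =>
    sg k * conj (coeff α.1 (ph β (g k)))
  -- rows are independent
  have hli : LinearIndependent ℂ M.row := by
    rw [Fintype.linearIndependent_iff]
    intro μ hμ
    let f : (Fin m →₀ ℕ) → ℂ := fun α =>
      if h : α ∈ SJ m q then conj (μ ⟨α, h⟩) / ((∏ i, (α i).factorial : ℕ) : ℂ) else 0
    have hfac : ∀ α : Fin m →₀ ℕ, ((∏ i, (α i).factorial : ℕ) : ℂ) ≠ 0 := by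
      intro α
      exact_mod_cast (Finset.prod_pos fun i _ => Nat.factorial_pos _).ne'
    have hp : (∑ α ∈ SJ m q, monomial α (f α) : MvPolynomial (Fin m) ℂ) = 0 := by
      refine hg _ ?_ ?_
      · refine (totalDegree_finsetSum_le fun α hα => ?_)
        refine (totalDegree_monomial_le _ _).trans ?_
        have := deg_SJ hα
        rw [Finsupp.sum_fintype _ _ (fun _ => rfl)]
        exact this
      · intro k
        rw [pr_of_support]
        have h1 := congrFun hμ k
        rw [Finset.sum_apply, Pi.zero_apply] at h1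
        have h2 : ∑ α : {α // α ∈ SJ m q}, μ α * conj (coeff α.1 (ph β (g k))) = 0 := by
          have h3 : sg k * ∑ α : {α // α ∈ SJ m q}, μ α * conj (coeff α.1 (ph β (g k))) = 0 := by
            rw [Finset.mul_sum, ← h1]
            refine Finset.sum_congr rfl fun α _ => ?_
            simp only [Pi.smul_apply, Matrix.row_apply, smul_eq_mul, M, Matrix.of_apply]
            ring
          rcases mul_eq_zero.1 h3 with h | h
          · exfalso
            by_cases hk : k = 0
            · simp [sg, hk] at h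
            · simp [sg, hk] at h
          · exact h
        have h4 : ∑ α ∈ SJ m q, f α * ((∏ i, (α i).factorial : ℕ) : ℂ) *
            coeff α (MvPolynomial.map (eval β) (tay1 (g k))) =
            conj (∑ α : {α // α ∈ SJ m q}, μ α * conj (coeff α.1 (ph β (g k)))) := by
          rw [map_sum, ← Finset.sum_attach, Finset.univ_eq_attach]
          refine Finset.sum_congr rfl fun α _ => ?_
          simp only [f]
          rw [dif_pos α.2, div_mul_cancel₀ _ (hfac _), map_mul, Complex.conj_conj, ph_apply]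
        rw [h4, h2, map_zero]
    intro α
    have h5 := congrArg (coeff α.1) hp
    rw [coeff_sum, coeff_zero] at h5
    simp only [coeff_monomial] at h5
    rw [Finset.sum_ite_eq' (SJ m q) α.1 f, if_pos α.2] at h5
    simp only [f] at h5
    rw [dif_pos α.2, div_eq_zero_iff] at h5
    rcases h5 with h | h
    · exact (map_eq_zero _).1 h
    · exact absurd h (hfac _)
  have hrk := hli.rank_matrix
  have hrn := LinearMap.finrank_range_add_finrank_ker M.mulVecLin
  rw [Module.finrank_fin_fun] at hrn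
  have hcard : Fintype.card {α // α ∈ SJ m q} = (m + q).choose m := by
    rw [Fintype.card_coe, card_SJ]
  have hle : Submodule.span ℂ T ≤ LinearMap.ker M.mulVecLin := by
    rw [Submodule.span_le]
    intro u hu
    obtain ⟨w, hw⟩ := hT u hu
    rw [SetLike.mem_coe, LinearMap.mem_ker]
    funext α
    have h := coeff_ph_hfc_zero (q := q) β g u w hw α.1 α.2
    rw [coeff_ph_hfc] at h
    have h' := congrArg conj h
    rw [map_sub, map_mul, map_sum, map_zero, Complex.conj_conj] at h'
    simp only [Matrix.mulVecLin_apply, Matrix.mulVec, dotProduct, Pi.zero_apply]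
    rw [← h', Fin.sum_univ_succ]
    simp only [M, Matrix.of_apply, sg, if_true, Fin.succ_ne_zero, if_false, map_mul, Complex.conj_conj]
    rw [sub_eq_add_neg, ← Finset.sum_neg_distrib]
    congr 1
    · ring
    · refine Finset.sum_congr rfl fun j _ => ?_
      ring
  have h6 := Submodule.finrank_mono hle
  have h7 : M.rank = Module.finrank ℂ (LinearMap.range M.mulVecLin) := rfl
  rw [← h7, hrk, hcard] at hrn
  omega

end Pool.Agent.Helper8.DC
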